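import Pool.Agent.H98.BE.Stmt
import Pool.Agent.H98.BQ.CORE

/-!
# The main step of the proof, general losses (task COREE of helper98, by helper686)
-/

set_option autoImplicit false
set_option linter.unusedSectionVars false

namespace Pool.Agent.H98.BE

open Finset
open scoped Pointwise
open Pool.Agent.H98.BG Pool.Agent.H98.BQ Pool.Agent.H98.BQ.COREL

namespace COREEL

variable {G : Type} [AddCommGroup G] [Fintype G] [DecidableEq G]

theorem claim (stq : STQ) (sq : SEQ) (los : LOSE) (bas : BAS) (A : Finset G)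
    (E : ℕ → Finset G) (lam ε η : ℝ) (q n : ℕ) (hA : A.Nonempty) (hlam : 0 ≤ lam) (hε : 0 < ε)
    (hε1 : ε ≤ 1) (hη : 0 < η) (hη1 : η ≤ 1) (hqpos : (0 : ℝ) < q)
    (hq : 2 * lam + Real.log (4 / (η / 16)) ≤ ε * q) (hd : Dom A E lam n)
    (hp : η * 2 ^ (n - 1) ≤ 16 * (q : ℝ)) :
    ∀ j ≤ n - 1, ∃ τ : G → ℝ, IsP τ ∧ Sup A τ ∧
      (Real.log A.card - H τ) + ((2 : ℝ) ^ j * q) *
        (H (cv (sg A E q j) τ) - H (sg A E q j)) ≤ q * lam + 3 * j * (q : ℝ) ^ 2 := by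
  have hq0 : (0 : ℝ) ≤ q := hqpos.le
  intro j
  induction j with
  | zero =>
    intro _
    refine ⟨GO0L.un A, GO0L.un_isP A hA, Or.inl (GO0L.un_supp A), ?_⟩
    have h1 := base bas A E lam n hA hd
    have e1 : sg A E q 0 = GO0L.un A := rfl
    rw [e1, GO0L.un_H A hA] at *
    simp only [pow_zero, one_mul, Nat.cast_zero, mul_zero, zero_mul, add_zero, sub_self, zero_add]
    exact mul_le_mul_of_nonneg_left h1 hq0
  | succ j ih =>
    intro hj
    obtain ⟨τ, hτ, hsup, hb⟩ := ih (by omega)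
    have hjn : j < n := by omega
    have hσ := (sq G A E lam q n hA hq0 hd j).1
    have hρ := (sq G A E lam q n hA hq0 hd (j + 1)).1
    have hρs := (sq G A E lam q n hA hq0 hd (j + 1)).2.1
    have hl := (los G A E lam q ε (η / 16) n hA hlam hε hε1 (by positivity) (by linarith) hq hd
      j hjn).1
    have hqN : 0 < q := by exact_mod_cast hqpos
    have hm : 0 < 2 ^ j * q := by positivity
    have hqm : (q : ℝ) ≤ ((2 ^ j * q : ℕ) : ℝ) := by
      have : q ≤ 2 ^ j * q := Nat.le_mul_of_pos_left q (by positivity)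
      exact_mod_cast this
    obtain ⟨τ', h1, h2, h3⟩ := step stq A E lam n j hd (2 ^ j * q) q ((2 : ℝ) ^ (j + 1) * q)
      (η / 16) (Real.log A.card) (sg A E q j) τ (sg A E q (j + 1)) hσ hτ hρ hm hq0 hqm
      (by positivity) hsup hρs hl
    refine ⟨τ', h1, h2, h3.trans ?_⟩
    have e1 : ((2 ^ j * q : ℕ) : ℝ) = (2 : ℝ) ^ j * q := by push_cast; ring
    rw [e1]
    have h2j : (0 : ℝ) < (2 : ℝ) ^ j := by positivity
    have e2 : (2 : ℝ) ^ (j + 1) * q * (η / 16 + (q : ℝ) ^ 2 / ((2 : ℝ) ^ j * q)) =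
        (η * (2 : ℝ) ^ (j + 1)) * q / 16 + 2 * (q : ℝ) ^ 2 := by
      field_simp
      ring
    rw [e2]
    have h4 : η * (2 : ℝ) ^ (j + 1) ≤ 16 * q := by
      have h5 : (2 : ℝ) ^ (j + 1) ≤ 2 ^ (n - 1) := pow_le_pow_right₀ (by norm_num) hj
      exact (mul_le_mul_of_nonneg_left h5 hη.le).trans hp
    have h5 : (η * (2 : ℝ) ^ (j + 1)) * q ≤ 16 * (q : ℝ) ^ 2 := by
      calc (η * (2 : ℝ) ^ (j + 1)) * q ≤ (16 * q) * q := mul_le_mul_of_nonneg_right h4 hq0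
        _ = 16 * (q : ℝ) ^ 2 := by ring
    push_cast
    nlinarith

end COREEL

theorem coree (stq : STQ) (sq : SEQ) (los : LOSE) (bas : BAS) : COREE := by
  intro G _ _ _ A E lam ε η q n hA hlam hε hε1 hη hη1 hq' hd hn hp1 hp2
  have e0 : (4 : ℝ) / (η / 16) = 64 / η := by
    field_simp
    norm_num
  have hq : 2 * lam + Real.log (4 / (η / 16)) ≤ ε * q := by
    rw [e0]
    exact hq'
  have hq0 : (0 : ℝ) ≤ q := Nat.cast_nonneg q
  have hlog : 0 < Real.log (64 / η) := by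
    apply Real.log_pos
    rw [lt_div_iff₀ hη]
    linarith
  have hεq : ε * q ≤ q := by
    calc ε * q ≤ 1 * q := mul_le_mul_of_nonneg_right hε1 hq0
      _ = q := one_mul _
  have hlamq : lam ≤ q := by linarith
  have hqpos : (0 : ℝ) < q := by linarith
  have hqN : 0 < q := by exact_mod_cast hqpos
  obtain ⟨τ, hτ, hsup, hb⟩ := COREEL.claim stq sq los bas A E lam ε η q n hA hlam hε hε1 hη hη1
    hqpos hq hd hp2 (n - 1) le_rfl
  have hσ := (sq G A E lam q n hA hq0 hd (n - 1)).1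
  obtain ⟨ρ, hρ, hρs, hl⟩ := (los G A E lam q ε (η / 16) n hA hlam hε hε1 (by positivity)
    (by linarith) hq hd (n - 1) (by omega)).2
  have hm : 0 < 2 ^ (n - 1) * q := by positivity
  have hqm : (q : ℝ) ≤ ((2 ^ (n - 1) * q : ℕ) : ℝ) := by
    have : q ≤ 2 ^ (n - 1) * q := Nat.le_mul_of_pos_left q (by positivity)
    exact_mod_cast this
  have hnR : (1 : ℝ) ≤ n := by exact_mod_cast hn
  have hN : (0 : ℝ) < n * (q : ℝ) ^ 2 := by positivity
  obtain ⟨w, hw⟩ : ∃ w : ℝ, w = 16 * (n * (q : ℝ) ^ 2) / η := ⟨_, rfl⟩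
  have hw0 : 0 < w := by rw [hw]; positivity
  have hwη : w * η = 16 * (n * (q : ℝ) ^ 2) := by
    rw [hw]
    field_simp
  obtain ⟨τ', h1, h2, h3⟩ := step stq A E lam n (n - 1) hd (2 ^ (n - 1) * q) q
    w (η / 16) (Real.log A.card) (sg A E q (n - 1)) τ ρ hσ hτ hρ hm
    hq0 hqm hw0.le hsup (fun x hx => (hρs x hx).1) hl
  have e1 : ((2 ^ (n - 1) * q : ℕ) : ℝ) = (2 : ℝ) ^ (n - 1) * q := by push_cast; ring
  rw [e1] at h3
  have h4 : (q : ℝ) ^ 2 / ((2 : ℝ) ^ (n - 1) * q) ≤ η / 8 := by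
    rw [div_le_div_iff₀ (by positivity) (by norm_num)]
    have h5 := mul_le_mul_of_nonneg_right hp1 hq0
    calc (q : ℝ) ^ 2 * 8 = 8 * (q : ℝ) * q := by ring
      _ ≤ η * 2 ^ (n - 1) * q := h5
      _ = η * (2 ^ (n - 1) * q) := by ring
  have h5 : (q : ℝ) * lam + 3 * ((n - 1 : ℕ) : ℝ) * (q : ℝ) ^ 2 ≤ 3 * (n * (q : ℝ) ^ 2) := by
    rw [Nat.cast_sub hn, Nat.cast_one]
    have h6 : (q : ℝ) * lam ≤ (q : ℝ) * q := mul_le_mul_of_nonneg_left hlamq hq0
    have h7 : 0 ≤ (q : ℝ) ^ 2 := by positivity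
    nlinarith
  have h6 : (Real.log A.card - H τ') + w * (H (cv ρ τ') - H ρ) ≤ 6 * (n * (q : ℝ) ^ 2) := by
    have h7 : w * (η / 16 + (q : ℝ) ^ 2 / ((2 : ℝ) ^ (n - 1) * q)) ≤ w * (η / 16 + η / 8) :=
      mul_le_mul_of_nonneg_left (by linarith) hw0.le
    have h8 : w * (η / 16 + η / 8) = 3 / 16 * (w * η) := by ring
    rw [h8, hwη] at h7
    linarith
  have h7 := sup_H bas A τ' h1 h2
  have h8 := cv_ge bas ρ τ' hρ h1
  have h9 : 0 ≤ w * (H (cv ρ τ') - H ρ) := mul_nonneg hw0.le (by linarith)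
  refine ⟨sg A E q (n - 1), ρ, τ', hσ, hρ, h1, fun x hx => (hρs x hx).2, h2, ?_, ?_⟩
  · have e2 : 8 * (n : ℝ) * (q : ℝ) ^ 2 = 8 * (n * (q : ℝ) ^ 2) := by ring
    rw [e2]
    linarith
  · by_contra hneg
    push Not at hneg
    have h10 : w * η < w * (H (cv ρ τ') - H ρ) := mul_lt_mul_of_pos_left hneg hw0
    rw [hwη] at h10
    linarith

end Pool.Agent.H98.BE
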