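import Pool.Agent.H98.BE.Stmt
import Pool.Agent.H98.BG.F2

/-!
# Most of a coset in `A + A`, vector spaces over `F_2`
-/

set_option autoImplicit false

namespace Pool.Agent.H98.BE

open Finset
open scoped Pointwise
open Pool.Agent.H98.BG

namespace F2EL

/-- sets of density more than one half -/
theorem add_univ {n : ℕ} (A : Finset (Fin n → ZMod 2)) (h : (2 : ℝ) ^ n < 2 * A.card) :
    ∀ x, x ∈ A + A := by
  intro x
  have hcard : (Fintype.card (Fin n → ZMod 2) : ℝ) = 2 ^ n := by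
    rw [Fintype.card_fun, ZMod.card, Fintype.card_fin]; push_cast; rfl
  by_contra hx
  have hdisj : Disjoint A (A.image fun y => x - y) := by
    rw [Finset.disjoint_left]
    intro y hy hy2
    obtain ⟨z, hz, rfl⟩ := Finset.mem_image.1 hy2
    exact hx (Finset.mem_add.2 ⟨x - z, hy, z, hz, by abel⟩)
  have h1 := Finset.card_union_of_disjoint hdisj
  rw [Finset.card_image_of_injective _ (sub_right_injective (b := x))] at h1
  have h2 : ((A ∪ A.image fun y => x - y).card : ℝ) ≤ 2 ^ n := by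
    rw [← hcard]; exact_mod_cast Finset.card_le_univ _
  rw [h1] at h2
  push_cast at h2
  linarith

/-- more than one half of a coset in `B` gives `V` in `B + B` -/
theorem mem_of_half {n : ℕ} (B : Finset (Fin n → ZMod 2)) (V : Submodule (ZMod 2) (Fin n → ZMod 2))
    (z : Fin n → ZMod 2)
    (h : (Set.ncard (V : Set (Fin n → ZMod 2)) : ℝ) <
      2 * (Set.ncard {v | v ∈ V ∧ z + v ∈ B} : ℝ)) : ∀ v ∈ V, v ∈ B + B := by
  intro v hv
  classical
  by_contra hcon
  set P : Set (Fin n → ZMod 2) := {w | w ∈ V ∧ z + w ∈ B} with hP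
  have hdisj : Disjoint P ((fun w => v + w) '' P) := by
    rw [Set.disjoint_left]
    rintro w ⟨hw1, hw2⟩ ⟨w', ⟨hw3, hw4⟩, rfl⟩
    apply hcon
    rw [Finset.mem_add]
    refine ⟨z + (v + w'), hw2, z + w', hw4, ?_⟩
    have e : z + (v + w') + (z + w') = (z + z) + (w' + w') + v := by abel
    rw [e, F2L.add_self, F2L.add_self, zero_add, zero_add]
  have hsub : P ∪ (fun w => v + w) '' P ⊆ (V : Set (Fin n → ZMod 2)) := by
    rintro w (⟨hw, -⟩ | ⟨w', ⟨hw, -⟩, rfl⟩)
    · exact hw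
    · exact V.add_mem hv hw
  have h1 := Set.ncard_le_ncard hsub (Set.toFinite _)
  rw [Set.ncard_union_eq hdisj (Set.toFinite _) (Set.toFinite _),
    Set.ncard_image_of_injective _ (add_right_injective v)] at h1
  have h2 : (2 : ℝ) * (P.ncard : ℝ) ≤ (Set.ncard (V : Set (Fin n → ZMod 2)) : ℝ) := by
    have : P.ncard + P.ncard ≤ Set.ncard (V : Set (Fin n → ZMod 2)) := h1
    have h3 : ((P.ncard + P.ncard : ℕ) : ℝ) ≤ (Set.ncard (V : Set (Fin n → ZMod 2)) : ℝ) := by
      exact_mod_cast this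
    push_cast at h3
    linarith
  linarith

end F2EL

open F2EL in
/-- the result in `F_2^n` -/
theorem f2e (h : FQE) : ∀ ε : ℝ, 0 < ε → ε ≤ 1 → ∃ C : ℝ, 0 < C ∧
    ∀ (n : ℕ) (α : ℝ) (A : Finset (Fin n → ZMod 2)), 0 < α → α ≤ 1 → α * 2 ^ n ≤ (A.card : ℝ) →
    ∃ V : Submodule (ZMod 2) (Fin n → ZMod 2),
      (n : ℝ) ≤ Module.finrank (ZMod 2) V +
        C * (Real.log (1 / α) ^ 2 * Real.log (2 + Real.log (1 / α))) ∧
      (∃ z, (1 - ε) * (Set.ncard (V : Set (Fin n → ZMod 2)) : ℝ) ≤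
        (Set.ncard {v | v ∈ V ∧ z + v ∈ A + A} : ℝ)) ∧
      ∀ ν : (Fin n → ZMod 2) → ℝ, IsP ν → (∀ y, ν y ≠ 0 → y ∈ V) →
        ∃ z, 1 - ε ≤ pr ν (A + A) z := by
  intro ε hε hε1
  obtain ⟨C, hC, h⟩ := h ε hε hε1
  refine ⟨C, hC, ?_⟩
  intro n α A hα hα1 hA
  have : Fact (Nat.Prime 2) := ⟨Nat.prime_two⟩
  have h2n : (0 : ℝ) < 2 ^ n := by positivity
  have hcA : (0 : ℝ) < A.card := lt_of_lt_of_le (by positivity) hA
  have hne : A.Nonempty := by
    rw [← Finset.card_pos]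
    exact_mod_cast hcA
  have hlog0 : 0 ≤ Real.log (1 / α) := Real.log_nonneg (by rw [le_div_iff₀ hα]; linarith)
  by_cases hd : (1 : ℝ) / α < 2
  · have hAA := add_univ A (by rw [div_lt_iff₀ hα] at hd; nlinarith)
    refine ⟨⊤, ?_, ⟨0, ?_⟩, fun ν hν _ => ⟨0, ?_⟩⟩
    · have h1 : (Module.finrank (ZMod 2) (⊤ : Submodule (ZMod 2) (Fin n → ZMod 2)) : ℝ) = n := by
        rw [finrank_top, Module.finrank_fintype_fun_eq_card, Fintype.card_fin]
      rw [h1]
      have h3 : 0 ≤ Real.log (2 + Real.log (1 / α)) := Real.log_nonneg (by linarith)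
      have h4 : 0 ≤ C * (Real.log (1 / α) ^ 2 * Real.log (2 + Real.log (1 / α))) := by positivity
      linarith
    · have e : {v | v ∈ (⊤ : Submodule (ZMod 2) (Fin n → ZMod 2)) ∧ 0 + v ∈ A + A} =
          ((⊤ : Submodule (ZMod 2) (Fin n → ZMod 2)) : Set (Fin n → ZMod 2)) := by
        ext v
        simp only [Set.mem_setOf_eq, SetLike.mem_coe]
        exact ⟨fun h => h.1, fun h => ⟨h, hAA _⟩⟩
      rw [e]
      have h0 : (0 : ℝ) ≤ (Set.ncard ((⊤ : Submodule (ZMod 2) (Fin n → ZMod 2)) :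
        Set (Fin n → ZMod 2)) : ℝ) := Nat.cast_nonneg _
      nlinarith
    · have e : pr ν (A + A) 0 = 1 := by
        rw [← hν.2]
        unfold pr
        exact Finset.sum_congr rfl fun s _ => if_pos (hAA _)
      rw [e]
      linarith
  · push Not at hd
    exact h 2 n A (1 / α) hne hd (by
      rw [div_mul_eq_mul_div, one_mul, le_div_iff₀ hα]
      push_cast
      linarith)

end Pool.Agent.H98.BE
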