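import Pool.Agent.H98.BE.F2

/-!
# Most of a translate of each subset of a subspace in `A + A`
-/

set_option autoImplicit false

namespace Pool.Agent.H98.BE

open Finset
open scoped Pointwise
open Pool.Agent.H98.BG

/-- the uniform measure on a finite set -/
theorem of_measure {G : Type} [AddCommGroup G] [Fintype G] [DecidableEq G] (B W : Finset G)
    (ε : ℝ) (h : ∀ ν : G → ℝ, IsP ν → (∀ y, ν y ≠ 0 → y ∈ W) → ∃ z, 1 - ε ≤ pr ν B z) :
    ∃ z, (1 - ε) * (W.card : ℝ) ≤ ((W.filter fun w => z + w ∈ B).card : ℝ) := by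
  by_cases hW : W.Nonempty
  · have hc : (0 : ℝ) < W.card := by exact_mod_cast hW.card_pos
    obtain ⟨z, hz⟩ := h (fun y => if y ∈ W then 1 / (W.card : ℝ) else 0) (by
      constructor
      · intro x
        simp only
        split_ifs
        · positivity
        · exact le_rfl
      · rw [Finset.sum_ite_mem, Finset.univ_inter, Finset.sum_const, nsmul_eq_mul]
        field_simp) (by
      intro y hy
      by_contra hcon
      exact hy (if_neg hcon))
    refine ⟨z, ?_⟩
    have e : pr (fun y => if y ∈ W then 1 / (W.card : ℝ) else 0) B z =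
        ((W.filter fun w => z + w ∈ B).card : ℝ) / W.card := by
      unfold pr
      have h1 : ∀ s, (if z + s ∈ B then (if s ∈ W then 1 / (W.card : ℝ) else 0) else 0) =
          if s ∈ W.filter (fun w => z + w ∈ B) then 1 / (W.card : ℝ) else 0 := by
        intro s
        by_cases h2 : z + s ∈ B
        · by_cases h3 : s ∈ W
          · rw [if_pos h2, if_pos h3, if_pos (Finset.mem_filter.2 ⟨h3, h2⟩)]
          · rw [if_pos h2, if_neg h3, if_neg (fun h4 => h3 (Finset.mem_filter.1 h4).1)]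
        · have h5 : s ∉ W.filter (fun w => z + w ∈ B) := fun h4 => h2 (Finset.mem_filter.1 h4).2
          rw [if_neg h2, if_neg h5]
      rw [Finset.sum_congr rfl fun s _ => h1 s, Finset.sum_ite_mem, Finset.univ_inter,
        Finset.sum_const, nsmul_eq_mul]
      ring
    rw [e, le_div_iff₀ hc] at hz
    exact hz
  · rw [Finset.not_nonempty_iff_eq_empty] at hW
    exact ⟨0, by rw [hW]; simp⟩

open F2EL in
/-- the result in `F_2^n`, for subsets of the subspace, with the sumsets `kA` -/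
theorem f2w (h : FQE) : ∀ ε : ℝ, 0 < ε → ε < 1 / 2 → ∃ C : ℝ, 0 < C ∧
    ∀ (n : ℕ) (α : ℝ) (A : Finset (Fin n → ZMod 2)), 0 < α → α ≤ 1 → α * 2 ^ n ≤ (A.card : ℝ) →
    ∃ V : Submodule (ZMod 2) (Fin n → ZMod 2),
      (n : ℝ) ≤ Module.finrank (ZMod 2) V +
        C * (Real.log (1 / α) ^ 2 * Real.log (2 + Real.log (1 / α))) ∧
      (∀ W : Finset (Fin n → ZMod 2), (∀ w ∈ W, w ∈ V) →
        ∃ z : Fin n → ZMod 2,
          (1 - ε) * (W.card : ℝ) ≤ ((W.filter fun w => z + w ∈ A + A).card : ℝ)) ∧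
      ∀ k : ℕ, 4 ≤ k → ∀ a ∈ A, ∀ v ∈ V, (k - 4) • a + v ∈ k • A := by
  intro ε hε hε1
  obtain ⟨C, hC, h⟩ := f2e h ε hε (by linarith)
  refine ⟨C, hC, ?_⟩
  intro n α A hα hα1 hA
  obtain ⟨V, hV, -, hν⟩ := h n α A hα hα1 hA
  have hsets : ∀ W : Finset (Fin n → ZMod 2), (∀ w ∈ W, w ∈ V) →
      ∃ z : Fin n → ZMod 2,
        (1 - ε) * (W.card : ℝ) ≤ ((W.filter fun w => z + w ∈ A + A).card : ℝ) := by
    intro W hW
    exact of_measure (A + A) W ε fun ν h1 h2 => hν ν h1 fun y hy => hW y (h2 y hy)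
  refine ⟨V, hV, hsets, ?_⟩
  intro k hk a ha v hv
  have h4 : v ∈ 4 • A := by
    classical
    obtain ⟨z, hz⟩ := hsets (Finset.univ.filter fun w => w ∈ V) (by
      intro w hw
      exact (Finset.mem_filter.1 hw).2)
    have e1 : Set.ncard (V : Set (Fin n → ZMod 2)) =
        (Finset.univ.filter fun w => w ∈ V).card := by
      rw [← Set.ncard_coe_finset]
      congr 1
      ext w
      simp
    have e2 : Set.ncard {w | w ∈ V ∧ z + w ∈ A + A} =
        ((Finset.univ.filter fun w => w ∈ V).filter fun w => z + w ∈ A + A).card := by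
      rw [← Set.ncard_coe_finset]
      congr 1
      ext w
      simp
    have hpos : (0 : ℝ) < ((Finset.univ.filter fun w : Fin n → ZMod 2 => w ∈ V).card : ℝ) := by
      have : (0 : Fin n → ZMod 2) ∈ Finset.univ.filter fun w : Fin n → ZMod 2 => w ∈ V :=
        Finset.mem_filter.2 ⟨Finset.mem_univ _, V.zero_mem⟩
      exact_mod_cast Finset.card_pos.2 ⟨_, this⟩
    have h5 := mem_of_half (A + A) V z (by rw [e1, e2]; nlinarith) v hv
    have e3 : (4 : ℕ) • A = (A + A) + (A + A) := by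
      rw [show (4 : ℕ) = 2 + 2 by norm_num, add_nsmul, two_nsmul]
    rw [e3]
    exact h5
  have h1 : (k - 4) • a + v ∈ (k - 4) • A + 4 • A :=
    Finset.add_mem_add (Finset.nsmul_mem_nsmul ha) h4
  rw [← add_nsmul, Nat.sub_add_cancel hk] at h1
  exact h1

end Pool.Agent.H98.BE
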