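import Pool.Agent.H98.BE.Stmt
import Pool.Agent.H98.BQ.FGD

/-!
The result for finite groups (FGE), by helper808; adapted from `BQ/FGD.lean`.
-/

set_option autoImplicit false

namespace Pool.Agent.H98.BE

open Finset
open scoped Pointwise
open Pool.Agent.H98.BG Pool.Agent.H98.BQ

namespace FGEL

section

variable {G : Type} [AddCommGroup G] [Fintype G] [DecidableEq G]

omit [AddCommGroup G] [DecidableEq G] in
theorem avg_lt {w f : G → ℝ} {c : ℝ} (hw : IsP w) (hf : ∀ x, f x < c) :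
    ∑ x, w x * f x < c := by
  have h1 : ∃ x0, 0 < w x0 := by
    by_contra h
    push Not at h
    have h2 : ∑ x, w x ≤ 0 := Finset.sum_nonpos fun x _ => h x
    rw [hw.2] at h2
    linarith
  obtain ⟨x0, hx0⟩ := h1
  calc ∑ x, w x * f x < ∑ x, w x * c := by
        refine Finset.sum_lt_sum (fun x _ => mul_le_mul_of_nonneg_left (hf x).le (hw.1 x))
          ⟨x0, Finset.mem_univ _, mul_lt_mul_of_pos_left (hf x0) hx0⟩
    _ = c := by rw [← Finset.sum_mul, hw.2, one_mul]

omit [AddCommGroup G] [DecidableEq G] in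
theorem le_avg {w f : G → ℝ} {c : ℝ} (hw : IsP w) (hf : ∀ x, w x ≠ 0 → c ≤ f x) :
    c ≤ ∑ x, w x * f x := by
  calc c = ∑ x, w x * c := by rw [← Finset.sum_mul, hw.2, one_mul]
    _ ≤ ∑ x, w x * f x := by
      refine Finset.sum_le_sum fun x _ => ?_
      by_cases h : w x = 0
      · rw [h, zero_mul, zero_mul]
      · exact mul_le_mul_of_nonneg_left (hf x h) (hw.1 x)

theorem pr_nonneg {s : G → ℝ} (hs : IsP s) (B : Finset G) (x : G) : 0 ≤ pr s B x := by
  unfold pr
  refine Finset.sum_nonneg fun t _ => ?_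
  split_ifs
  · exact hs.1 t
  · exact le_rfl

theorem pr_le_one {s : G → ℝ} (hs : IsP s) (B : Finset G) (x : G) : pr s B x ≤ 1 := by
  unfold pr
  rw [← hs.2]
  refine Finset.sum_le_sum fun t _ => ?_
  split_ifs
  · exact le_rfl
  · exact hs.1 t

theorem exch (σ s ν : G → ℝ) (B : Finset G) :
    ∑ y, ν y * ∑ x, σ x * pr s B (x + y) = ∑ x, σ x * ∑ t, s t * pr ν B (x + t) := by
  unfold pr
  simp only [Finset.mul_sum]
  rw [Finset.sum_comm]
  refine Finset.sum_congr rfl fun x _ => ?_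
  rw [Finset.sum_comm]
  refine Finset.sum_congr rfl fun t _ => Finset.sum_congr rfl fun y _ => ?_
  rw [add_right_comm x y t]
  split_ifs
  · ring
  · ring

end

end FGEL

theorem fge (core : COREE) (fin1 : FIN1) (tve : TVE) (ch2 : CH2) (ch3 : CH3) (pare : PARE) :
    FGE := by
  intro ε hε hε1
  obtain ⟨C0, hC0, hpar⟩ := pare (ε / 2) (ε ^ 2 / 256) (by positivity) (by linarith)
    (by positivity) (by nlinarith)
  obtain ⟨C, hC⟩ : ∃ C : ℝ, C = 4 * C0 + 8 / ε := ⟨_, rfl⟩
  have hCpos : 0 < C := by rw [hC]; positivity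
  have hC1 : 4 * C0 ≤ C := by
    rw [hC]
    have : 0 < 8 / ε := by positivity
    linarith
  have hC2 : 1 / C ≤ ε / 8 := by
    rw [div_le_iff₀ hCpos, hC]
    have : ε / 8 * (4 * C0 + 8 / ε) = ε / 8 * (4 * C0) + 1 := by
      field_simp
    rw [this]
    have : 0 < ε / 8 * (4 * C0) := by positivity
    linarith
  refine ⟨C, hCpos, ?_⟩
  intro G _ _ _ A hA
  have hcA : (0 : ℝ) < A.card := by exact_mod_cast hA.card_pos
  have hcG : (0 : ℝ) < Fintype.card G := by
    have : 0 < Fintype.card G := Fintype.card_pos_iff.2 ⟨hA.choose⟩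
    exact_mod_cast this
  have hL : 0 ≤ Real.log ((Fintype.card G : ℝ) / A.card) := by
    apply Real.log_nonneg
    rw [le_div_iff₀ hcA, one_mul]
    exact_mod_cast Finset.card_le_univ A
  obtain ⟨q, n, hn1, hk1, hk2, hk3, hk4⟩ := hpar _ hL
  obtain ⟨s, σ, τ, hs, hσ, hτ, hsup, -, hD, hc⟩ := core G A (fun _ => Finset.univ)
    (Real.log ((Fintype.card G : ℝ) / A.card)) (ε / 2) (ε ^ 2 / 256) q n hA hL (by positivity)
    (by linarith) (by positivity) (by nlinarith) hk1 (FGDL.dom A hA n) hn1 hk2 hk3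
  classical
  obtain ⟨Γ, hΓS, hdiss, hspan⟩ := ch3 G
    (Finset.univ.filter fun χ : AddChar G ℂ => 1 / 2 ≤ ‖∑ t, (τ t : ℂ) * χ t‖ ^ 2)
  have hcard := ch2 G τ Γ (Real.log (Fintype.card G) - H τ) hτ le_rfl hdiss
    (fun l hl => (Finset.mem_filter.1 (hΓS hl)).2)
  refine ⟨Γ, ?_, ?_⟩
  · have e : Real.log ((Fintype.card G : ℝ) / A.card) =
        Real.log (Fintype.card G) - Real.log A.card := Real.log_div hcG.ne' hcA.ne'
    obtain ⟨Y, hY⟩ : ∃ Y : ℝ, Y = (1 + Real.log ((Fintype.card G : ℝ) / A.card)) ^ 2 *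
          (1 + Real.log (1 + Real.log ((Fintype.card G : ℝ) / A.card))) := ⟨_, rfl⟩
    have hY0 : 0 ≤ Y := by
      rw [hY]
      have : 0 ≤ Real.log (1 + Real.log ((Fintype.card G : ℝ) / A.card)) :=
        Real.log_nonneg (by linarith)
      positivity
    rw [← hY] at hk4
    rw [mul_assoc, ← hY]
    have h1 : (Γ.card : ℝ) ≤ 4 * C0 * Y := by linarith
    exact h1.trans (mul_le_mul_of_nonneg_right hC1 hY0)
  · intro ν hν hνy
    have hy' : ∀ y, ν y ≠ 0 → ∀ χ : AddChar G ℂ, 1 / 2 ≤ ‖∑ t, (τ t : ℂ) * χ t‖ ^ 2 →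
        ‖χ y - 1‖ ≤ ε / 8 := by
      intro y hy χ hχ
      by_cases h0 : Γ.card = 0
      · have := hspan χ (Finset.mem_filter.2 ⟨Finset.mem_univ _, hχ⟩) y 0
          (fun l hl => by
            rw [Finset.card_eq_zero] at h0; rw [h0] at hl; exact absurd hl (by simp))
        rw [h0] at this
        simp only [Nat.cast_zero, mul_zero] at this
        linarith
      · have hpos : (0 : ℝ) < Γ.card := by exact_mod_cast Nat.pos_of_ne_zero h0
        have := hspan χ (Finset.mem_filter.2 ⟨Finset.mem_univ _, hχ⟩) y (1 / (C * (Γ.card : ℝ)))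
          (fun l hl => by
            rw [le_div_iff₀ (by positivity)]; exact hνy y hy l hl)
        refine this.trans (le_trans (le_of_eq ?_) hC2)
        field_simp
    have hfin := fin1 G σ τ (ε ^ 2 / 256) hσ hτ hc
    have hsq : √(8 * (ε ^ 2 / 256) + (ε / 8) ^ 2) ≤ ε / 4 := by
      rw [Real.sqrt_le_left (by positivity)]
      nlinarith [sq_nonneg ε]
    have hbase : 1 - ε / 2 ≤ ∑ x, σ x * pr s (A + A) x := FGEL.le_avg hσ hsup
    have hsh : ∀ y, ν y ≠ 0 → 1 - ε ≤ ∑ x, σ x * pr s (A + A) (x + y) := by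
      intro y hy
      have h := tve G σ τ (ε ^ 2 / 256) (ε / 8) hσ hτ (by positivity) (by positivity) hfin y
        (hy' y hy) (pr s (A + A)) (FGEL.pr_nonneg hs _) (FGEL.pr_le_one hs _)
      linarith
    have hav : 1 - ε ≤ ∑ y, ν y * ∑ x, σ x * pr s (A + A) (x + y) := FGEL.le_avg hν hsh
    rw [FGEL.exch] at hav
    by_contra hcon
    push Not at hcon
    have h1 : ∀ x, ∑ t, s t * pr ν (A + A) (x + t) < 1 - ε := fun x =>
      FGEL.avg_lt hs fun t => hcon (x + t)
    exact absurd hav (not_le.2 (FGEL.avg_lt hσ h1))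

end Pool.Agent.H98.BE
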