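import Pool.Agent.H98.BE.Stmt
import Pool.Agent.H98.BG.Fq
import Pool.Agent.H98.BE.F2W

/-!
# Vector spaces over prime fields
-/

set_option autoImplicit false

namespace Pool.Agent.H98.BE

open Finset
open scoped Pointwise
open Pool.Agent.H98.BG

theorem fqe (h : FGE) : FQE := by
  intro ε hε hε1
  obtain ⟨C, hC, h⟩ := h ε hε hε1
  refine ⟨36 * C, by positivity, ?_⟩
  intro p hp n A K hA hK hAK
  have hcA : (0 : ℝ) < A.card := by exact_mod_cast hA.card_pos
  have hcard : (Fintype.card (Fin n → ZMod p) : ℝ) = (p : ℝ) ^ n := by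
    rw [Fintype.card_fun, ZMod.card, Fintype.card_fin]; push_cast; rfl
  obtain ⟨Γ, hΓ, hy⟩ := h (Fin n → ZMod p) A hA
  obtain ⟨V, hV, hVχ⟩ := FqL.exists_submodule Γ
  have hcardA : (A.card : ℝ) ≤ (p : ℝ) ^ n := by
    rw [← hcard]; exact_mod_cast Finset.card_le_univ A
  have hl2 : (0.69 : ℝ) ≤ Real.log 2 := by linarith [Real.log_two_gt_d9]
  have hlK : Real.log 2 ≤ Real.log K := Real.log_le_log (by norm_num) hK
  have hqn : (0 : ℝ) < (p : ℝ) ^ n := by linarith
  have hL0 : 0 ≤ Real.log ((Fintype.card (Fin n → ZMod p) : ℝ) / A.card) := by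
    rw [hcard]
    apply Real.log_nonneg
    rw [le_div_iff₀ hcA]
    linarith
  have hL1 : Real.log ((Fintype.card (Fin n → ZMod p) : ℝ) / A.card) ≤ Real.log K := by
    rw [hcard]
    apply Real.log_le_log (by positivity)
    rw [div_le_iff₀ hcA]
    linarith
  have hmeas : ∀ ν : (Fin n → ZMod p) → ℝ, IsP ν → (∀ y, ν y ≠ 0 → y ∈ V) →
      ∃ z, 1 - ε ≤ pr ν (A + A) z := by
    intro ν hν hνV
    apply hy ν hν
    intro y hy0 χ hχ
    rw [hVχ y (hνV y hy0) χ hχ, sub_self, norm_zero, zero_mul]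
    norm_num
  refine ⟨V, ?_, ?_, hmeas⟩
  · have h4 : (n : ℝ) ≤ Module.finrank (ZMod p) V + Γ.card := by exact_mod_cast hV
    obtain ⟨L, hL⟩ : ∃ L, L = Real.log ((Fintype.card (Fin n → ZMod p) : ℝ) / A.card) := ⟨_, rfl⟩
    rw [← hL] at hΓ hL0 hL1
    have h1 : 1 + L ≤ 3 * Real.log K := by linarith
    have h2 : Real.log (1 + L) ≤ Real.log (2 + Real.log K) :=
      Real.log_le_log (by linarith) (by linarith)
    have h3 : Real.log 2 ≤ Real.log (2 + Real.log K) := Real.log_le_log (by norm_num) (by linarith)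
    have h5 : 1 + Real.log (1 + L) ≤ 4 * Real.log (2 + Real.log K) := by linarith
    have h6 : 0 ≤ Real.log (1 + L) := Real.log_nonneg (by linarith)
    have h7 : (1 + L) ^ 2 * (1 + Real.log (1 + L)) ≤
        (3 * Real.log K) ^ 2 * (4 * Real.log (2 + Real.log K)) :=
      mul_le_mul (pow_le_pow_left₀ (by linarith) h1 2) h5 (by linarith) (by positivity)
    have h8 : (Γ.card : ℝ) ≤ 36 * C * (Real.log K ^ 2 * Real.log (2 + Real.log K)) := by
      refine hΓ.trans ?_
      rw [mul_assoc]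
      refine (mul_le_mul_of_nonneg_left h7 hC.le).trans (le_of_eq ?_)
      ring
    linarith
  · classical
    obtain ⟨z, hz⟩ := of_measure (A + A) (Finset.univ.filter fun w => w ∈ V) ε
      fun ν h1 h2 => hmeas ν h1 fun y hy => (Finset.mem_filter.1 (h2 y hy)).2
    refine ⟨z, ?_⟩
    have e1 : Set.ncard (V : Set (Fin n → ZMod p)) =
        (Finset.univ.filter fun w => w ∈ V).card := by
      rw [← Set.ncard_coe_finset]
      congr 1
      ext w
      simp
    have e2 : Set.ncard {w | w ∈ V ∧ z + w ∈ A + A} =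
        ((Finset.univ.filter fun w => w ∈ V).filter fun w => z + w ∈ A + A).card := by
      rw [← Set.ncard_coe_finset]
      congr 1
      ext w
      simp
    rw [e1, e2]
    exact hz

end Pool.Agent.H98.BE
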