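import Pool.Agent.H98.BE.Stmt

set_option autoImplicit false

namespace Pool.Agent.H98.BE

/-- the choice of the parameters -/
theorem pare : PARE := by
  intro ε η hε hε1 hη hη1
  set l : ℝ := Real.log (64 / η) with hl
  have hl0 : 0 < l := by
    apply Real.log_pos
    rw [lt_div_iff₀ hη]
    linarith
  set a : ℝ := (2 + l) / ε + 1 with ha
  have ha1 : 1 ≤ a := by
    have : 0 ≤ (2 + l) / ε := by positivity
    linarith
  set b : ℝ := Real.log (8 * a / η) with hb
  have hb0 : 0 < b := by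
    apply Real.log_pos
    rw [lt_div_iff₀ hη]
    linarith
  refine ⟨8 * (2 + 2 * b) * a ^ 2 + 1, by positivity, fun L hL => ?_⟩
  set q : ℕ := Nat.ceil ((2 * L + l) / ε) with hq
  have hpos : 0 < (2 * L + l) / ε := by positivity
  have hq1 : 1 ≤ q := Nat.ceil_pos.2 hpos
  have hq2 : (2 * L + l) / ε ≤ q := Nat.le_ceil _
  have hq3 : (q : ℝ) < (2 * L + l) / ε + 1 := Nat.ceil_lt_add_one hpos.le
  have hqa : (q : ℝ) ≤ a * (1 + L) := by
    have e1 : (2 * L + l) / ε ≤ ((2 + l) * (1 + L)) / ε := by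
      apply div_le_div_of_nonneg_right _ hε.le
      nlinarith
    have e2 : a * (1 + L) = ((2 + l) * (1 + L)) / ε + (1 + L) := by
      rw [ha]
      ring
    linarith
  have hq1' : (1 : ℝ) ≤ q := by exact_mod_cast hq1
  have hx : (1 : ℝ) ≤ 8 * q / η := by
    rw [le_div_iff₀ hη]
    linarith
  obtain ⟨m, hm1, hm2⟩ := exists_nat_pow_near hx (by norm_num : (1 : ℝ) < 2)
  have hlog0 : 0 ≤ Real.log (1 + L) := Real.log_nonneg (by linarith)
  have hn : ((m + 2 : ℕ) : ℝ) ≤ (2 + 2 * b) * (1 + Real.log (1 + L)) := by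
    have e1 : (m : ℝ) * Real.log 2 ≤ b + Real.log (1 + L) := by
      have e2 : (2 : ℝ) ^ m ≤ (8 * a / η) * (1 + L) := by
        refine hm1.trans ?_
        rw [div_mul_eq_mul_div]
        apply div_le_div_of_nonneg_right _ hη.le
        linarith
      have e3 := Real.log_le_log (by positivity) e2
      rw [Real.log_pow, Real.log_mul (by positivity) (by positivity)] at e3
      exact e3
    have e4 : (1 : ℝ) / 2 ≤ Real.log 2 := by
      have := Real.log_two_gt_d9
      linarith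
    have e5 : (m : ℝ) * (1 / 2) ≤ m * Real.log 2 :=
      mul_le_mul_of_nonneg_left e4 (Nat.cast_nonneg m)
    have e6 : 0 ≤ b * Real.log (1 + L) := mul_nonneg hb0.le hlog0
    push_cast
    linarith
  refine ⟨q, m + 2, by omega, ?_, ?_, ?_, ?_⟩
  · rw [div_le_iff₀ hε] at hq2
    linarith
  · rw [show m + 2 - 1 = m + 1 by omega]
    rw [div_lt_iff₀ hη] at hm2
    linarith
  · rw [show m + 2 - 1 = m + 1 by omega, pow_succ]
    rw [le_div_iff₀ hη] at hm1
    linarith
  · have h1 : (q : ℝ) ^ 2 ≤ (a * (1 + L)) ^ 2 := pow_le_pow_left₀ (by positivity) hqa 2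
    have h2 : 8 * ((m + 2 : ℕ) : ℝ) * (q : ℝ) ^ 2 ≤
        8 * ((2 + 2 * b) * (1 + Real.log (1 + L))) * (a * (1 + L)) ^ 2 :=
      mul_le_mul (by linarith) h1 (by positivity) (by positivity)
    have h3 : L ≤ (1 + L) ^ 2 * (1 + Real.log (1 + L)) := by
      have e1 : L ≤ (1 + L) ^ 2 := by nlinarith
      exact e1.trans (le_mul_of_one_le_right (by positivity) (by linarith))
    calc 8 * ((m + 2 : ℕ) : ℝ) * (q : ℝ) ^ 2 + L
        ≤ 8 * ((2 + 2 * b) * (1 + Real.log (1 + L))) * (a * (1 + L)) ^ 2 +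
          (1 + L) ^ 2 * (1 + Real.log (1 + L)) := add_le_add h2 h3
      _ = (8 * (2 + 2 * b) * a ^ 2 + 1) * ((1 + L) ^ 2 * (1 + Real.log (1 + L))) := by ring

end Pool.Agent.H98.BE
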