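import Pool.Agent.H98.BE.Stmt
import Pool.Agent.H98.BG.FIN2

/-!
# Translates of `σ` by elements of the Bohr set are close to `σ`
-/

set_option autoImplicit false

namespace Pool.Agent.H98.BE

open Finset
open scoped Pointwise
open Pool.Agent.H98.BG Pool.Agent.H98.BQ

namespace TVEL

open Pool.Agent.H98.BG.FIN2L

variable {G : Type} [AddCommGroup G] [Fintype G] [DecidableEq G]

/-- the correlation of `√σ` with its translate -/
theorem corr (σ τ : G → ℝ) (η δ : ℝ) (hσ : IsP σ) (hτ : IsP τ)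
    (h : ∑ t, ∑ t', τ t * τ t' * (1 - ∑ x, √(σ x) * √(σ (x + (t - t')))) ≤ η) (y : G)
    (hy : ∀ χ : AddChar G ℂ, 1 / 2 ≤ ‖∑ t, (τ t : ℂ) * χ t‖ ^ 2 → ‖χ y - 1‖ ≤ δ) :
    1 - δ ^ 2 / 2 - 4 * η ≤ ∑ x, √(σ x) * √(σ (x + y)) := by
  set g : G → ℝ := fun x => √(σ x) with hg
  -- the coefficient of `τ`
  set T : AddChar G ℂ → ℝ := fun χ => ‖∑ t, (τ t : ℂ) * χ t‖ ^ 2 with hT
  have hw0 : ∀ χ, 0 ≤ w g χ := fun χ => by unfold w; positivity
  have hw1 : ∑ χ, w g χ = 1 := by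
    have h1 := F_eq g 0
    have h2 : (∑ x, g x * g (x + 0) : ℝ) = 1 := by
      rw [← hσ.2]
      refine Finset.sum_congr rfl fun x _ => ?_
      rw [add_zero]
      exact Real.mul_self_sqrt (hσ.1 x)
    rw [h2] at h1
    simp only [AddChar.map_zero_eq_one, mul_one] at h1
    exact_mod_cast h1.symm
  have hF : ∀ z : G, (∑ x, g x * g (x + z) : ℝ) = ∑ χ, w g χ * (χ z).re := by
    intro z
    have h1 := congrArg Complex.re (F_eq g z)
    rw [Complex.ofReal_re, Complex.re_sum] at h1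
    rw [h1]
    refine Finset.sum_congr rfl fun χ _ => ?_
    rw [Complex.re_ofReal_mul]
  have hT1 : ∀ χ, T χ ≤ 1 := by
    intro χ
    have h1 : ‖∑ t, (τ t : ℂ) * χ t‖ ≤ 1 := by
      rw [← hτ.2]
      refine (norm_sum_le _ _).trans (Finset.sum_le_sum fun t _ => ?_)
      rw [norm_mul, AddChar.norm_apply, mul_one, Complex.norm_real, Real.norm_of_nonneg (hτ.1 t)]
    exact pow_le_one₀ (norm_nonneg _) h1
  have hTre : ∀ χ, T χ = ∑ t, ∑ t', τ t * τ t' * (χ (t - t')).re := by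
    intro χ
    have h1 := congrArg Complex.re (sq_norm_eq τ χ)
    rw [Complex.ofReal_re] at h1
    rw [hT]
    simp only
    rw [h1, Complex.re_sum]
    refine Finset.sum_congr rfl fun t _ => ?_
    rw [Complex.re_sum]
    refine Finset.sum_congr rfl fun t' _ => ?_
    rw [← Complex.ofReal_mul, Complex.re_ofReal_mul]
  have hmain : ∑ t, ∑ t', τ t * τ t' * (1 - ∑ x, √(σ x) * √(σ (x + (t - t')))) =
      ∑ χ, w g χ * (1 - T χ) := by
    have h1 : ∀ t t' : G, τ t * τ t' * (1 - ∑ x, √(σ x) * √(σ (x + (t - t')))) =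
        ∑ χ, w g χ * (τ t * τ t' - τ t * τ t' * (χ (t - t')).re) := by
      intro t t'
      have h2 : ∑ x, √(σ x) * √(σ (x + (t - t'))) = ∑ χ, w g χ * (χ (t - t')).re := hF (t - t')
      rw [h2]
      conv_lhs => rw [← hw1]
      rw [← Finset.sum_sub_distrib, Finset.mul_sum]
      exact Finset.sum_congr rfl fun χ _ => by ring
    rw [Finset.sum_congr rfl (fun t _ => Finset.sum_congr rfl fun t' _ => h1 t t')]
    rw [Finset.sum_congr rfl (fun t _ => Finset.sum_comm), Finset.sum_comm]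
    refine Finset.sum_congr rfl fun χ _ => ?_
    have h3 : (1 : ℝ) = ∑ t, ∑ t', τ t * τ t' := by
      rw [← Finset.sum_mul_sum, hτ.2, one_mul]
    rw [hTre χ]
    nth_rewrite 1 [h3]
    rw [← Finset.sum_sub_distrib, Finset.mul_sum]
    refine Finset.sum_congr rfl fun t _ => ?_
    rw [← Finset.sum_sub_distrib, Finset.mul_sum]
  rw [hmain] at h
  have hpt : ∀ χ : AddChar G ℂ, 1 - δ ^ 2 / 2 - 4 * (1 - T χ) ≤ (χ y).re := by
    intro χ
    have hn : ‖χ y‖ = 1 := AddChar.norm_apply χ y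
    by_cases hc : 1 / 2 ≤ T χ
    · have h1 := hy χ hc
      have h2 : ‖χ y - 1‖ ^ 2 = 2 - 2 * (χ y).re := by
        have h3 : ‖χ y‖ ^ 2 = 1 := by rw [hn, one_pow]
        rw [← Complex.normSq_eq_norm_sq, Complex.normSq_apply] at h3 ⊢
        rw [Complex.sub_re, Complex.sub_im, Complex.one_re, Complex.one_im]
        nlinarith
      have h3 : ‖χ y - 1‖ ^ 2 ≤ δ ^ 2 := pow_le_pow_left₀ (norm_nonneg _) h1 2
      have h4 := hT1 χ
      linarith
    · push Not at hc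
      have h2 : |(χ y).re| ≤ 1 := (Complex.abs_re_le_norm _).trans hn.le
      have h3 := (abs_le.1 h2).1
      have h4 : 0 ≤ δ ^ 2 := sq_nonneg _
      linarith
  show 1 - δ ^ 2 / 2 - 4 * η ≤ ∑ x, g x * g (x + y)
  rw [hF y]
  have h1 : ∑ χ, w g χ * (1 - δ ^ 2 / 2 - 4 * (1 - T χ)) ≤ ∑ χ, w g χ * (χ y).re :=
    Finset.sum_le_sum fun χ _ => mul_le_mul_of_nonneg_left (hpt χ) (hw0 χ)
  have h2 : ∑ χ, w g χ * (1 - δ ^ 2 / 2 - 4 * (1 - T χ)) =
      (1 - δ ^ 2 / 2) * ∑ χ, w g χ - 4 * ∑ χ, w g χ * (1 - T χ) := by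
    rw [Finset.mul_sum, Finset.mul_sum, ← Finset.sum_sub_distrib]
    exact Finset.sum_congr rfl fun χ _ => by ring
  rw [h2, hw1] at h1
  linarith

end TVEL

theorem tve : TVE := by
  intro G _ _ _ σ τ η δ hσ hτ _ _ h y hy f hf0 hf1
  have ha := TVEL.corr σ τ η δ hσ hτ h y hy
  set g : G → ℝ := fun x => √(σ x) with hg
  have hg0 : ∀ x, 0 ≤ g x := fun x => Real.sqrt_nonneg _
  have hgs : ∀ x, g x ^ 2 = σ x := fun x => Real.sq_sqrt (hσ.1 x)
  set a : ℝ := ∑ x, g x * g (x + y) with haa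
  have hsh : ∀ F : G → ℝ, ∑ x, F (x - y) = ∑ x, F x := fun F =>
    (Equiv.subRight y).sum_comp F
  have s1 : ∑ x, g x ^ 2 = 1 := by
    simp only [hgs]
    exact hσ.2
  have s2 : ∑ x, g (x - y) ^ 2 = 1 := by
    rw [hsh fun x => g x ^ 2]
    exact s1
  have s3 : ∑ x, g x * g (x - y) = a := by
    have e := hsh fun x => g (x + y) * g x
    simp only [sub_add_cancel] at e
    rw [e, haa]
    exact Finset.sum_congr rfl fun x _ => mul_comm _ _
  have d1 : ∑ x, (g x - g (x - y)) ^ 2 = 2 - 2 * a := by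
    have e : ∀ x, (g x - g (x - y)) ^ 2 = g x ^ 2 + g (x - y) ^ 2 - 2 * (g x * g (x - y)) := fun x => by
      ring
    simp only [e]
    rw [Finset.sum_sub_distrib, Finset.sum_add_distrib, s1, s2, ← Finset.mul_sum, s3]
    ring
  have d2 : ∑ x, (g x + g (x - y)) ^ 2 = 2 + 2 * a := by
    have e : ∀ x, (g x + g (x - y)) ^ 2 = g x ^ 2 + g (x - y) ^ 2 + 2 * (g x * g (x - y)) := fun x => by
      ring
    simp only [e]
    rw [Finset.sum_add_distrib, Finset.sum_add_distrib, s1, s2, ← Finset.mul_sum, s3]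
    ring
  have ha1 : a ≤ 1 := by
    have : 0 ≤ ∑ x, (g x - g (x - y)) ^ 2 := Finset.sum_nonneg fun x _ => sq_nonneg _
    rw [d1] at this
    linarith
  have e1 : ∑ x, σ x * f (x + y) = ∑ x, σ (x - y) * f x := by
    have e := hsh fun x => σ x * f (x + y)
    simp only [sub_add_cancel] at e
    exact e.symm
  have e2 : ∑ x, σ x * f x - ∑ x, σ (x - y) * f x ≤ ∑ x, |g x - g (x - y)| * (g x + g (x - y)) := by
    rw [← Finset.sum_sub_distrib]
    refine Finset.sum_le_sum fun x _ => ?_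
    have k1 : σ x * f x - σ (x - y) * f x = ((g x - g (x - y)) * (g x + g (x - y))) * f x := by
      rw [← hgs x, ← hgs (x - y)]
      ring
    have k2 : 0 ≤ g x + g (x - y) := add_nonneg (hg0 _) (hg0 _)
    rw [k1]
    calc ((g x - g (x - y)) * (g x + g (x - y))) * f x
        ≤ (|g x - g (x - y)| * (g x + g (x - y))) * f x :=
          mul_le_mul_of_nonneg_right (mul_le_mul_of_nonneg_right (le_abs_self _) k2) (hf0 x)
      _ ≤ (|g x - g (x - y)| * (g x + g (x - y))) * 1 :=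
          mul_le_mul_of_nonneg_left (hf1 x) (mul_nonneg (abs_nonneg _) k2)
      _ = _ := mul_one _
  have e3 := Real.sum_mul_le_sqrt_mul_sqrt Finset.univ (fun x => |g x - g (x - y)|)
    (fun x => g x + g (x - y))
  simp only [sq_abs] at e3
  rw [d1, d2] at e3
  have e4 : √(2 - 2 * a) ≤ √(8 * η + δ ^ 2) := Real.sqrt_le_sqrt (by linarith)
  have e5 : √(2 + 2 * a) ≤ 2 := by
    rw [show (2 : ℝ) = √4 by rw [show (4 : ℝ) = 2 ^ 2 by norm_num, Real.sqrt_sq (by norm_num)]]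
    refine Real.sqrt_le_sqrt ?_
    rw [show √(4 : ℝ) = 2 by rw [show (4 : ℝ) = 2 ^ 2 by norm_num, Real.sqrt_sq (by norm_num)]]
    linarith
  have e6 : √(2 - 2 * a) * √(2 + 2 * a) ≤ √(8 * η + δ ^ 2) * 2 :=
    mul_le_mul e4 e5 (Real.sqrt_nonneg _) (Real.sqrt_nonneg _)
  rw [e1]
  linarith

end Pool.Agent.H98.BE
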