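import Pool.Agent.H98.BQ.Main
import Pool.Agent.H98.BE.LOSE
import Pool.Agent.H98.BE.COREE
import Pool.Agent.H98.BE.TVE
import Pool.Agent.H98.BE.PARE
import Pool.Agent.H98.BE.FGE
import Pool.Agent.H98.BE.FQE
import Pool.Agent.H98.BE.F2W

/-!
# Almost all of a translate of a Bohr set in `A + A`: assembly
-/

set_option autoImplicit false

namespace Pool.Agent.H98.BE

open Finset
open scoped Pointwise
open Pool.Agent.H98.BG Pool.Agent.H98.BQ

theorem coreeMain : COREE := by
  have g := gib
  have b := bas g
  have v := vr g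
  have s := sq v b
  exact coree (stq (t1 g) (ns g mgf) b) s (lose v s) b

theorem fgeMain : FGE := fge coreeMain fin1 tve (ch2 gib ch1) ch3 pare

theorem fqeMain : FQE := fqe fgeMain

end Pool.Agent.H98.BE
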