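import Pool.Agent.H98.BQ.Stmt

/-!
# `A + A` contains almost all of a translate of a Bohr set: statements

The notation is that of `Pool/Agent/H98/BQ/Stmt.lean`.
-/

set_option autoImplicit false

namespace Pool.Agent.H98.BE

open Finset
open scoped Pointwise
open Pool.Agent.H98.BG Pool.Agent.H98.BQ

/-- the losses are small -/
def LOSE : Prop := ∀ (G : Type) [AddCommGroup G] [Fintype G] [DecidableEq G] (A : Finset G)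
  (E : ℕ → Finset G) (lam q ε κ : ℝ) (n : ℕ), A.Nonempty → 0 ≤ lam → 0 < ε → ε ≤ 1 → 0 < κ →
  κ ≤ 1 → 2 * lam + Real.log (4 / κ) ≤ ε * q → Dom A E lam n → ∀ i < n,
  (-(q * ∑ x, sg A E q (i + 1) x * pr (sg A E q i) (A + A) x) +
    Real.log (∑ x ∈ E (i + 2), Real.exp (q * pr (sg A E q i) (A + A) x)) ≤
      H (sg A E q (i + 1)) + κ) ∧
  ∃ ρ : G → ℝ, IsP ρ ∧ (∀ x, ρ x ≠ 0 → x ∈ E (i + 1) ∧ 1 - ε ≤ pr (sg A E q i) (A + A) x) ∧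
    -(q * ∑ x, ρ x * pr (sg A E q i) (A + A) x) +
      Real.log (∑ x ∈ E (i + 2), Real.exp (q * pr (sg A E q i) (A + A) x)) ≤ H ρ + κ

/-- the main step of the proof -/
def COREE : Prop := ∀ (G : Type) [AddCommGroup G] [Fintype G] [DecidableEq G] (A : Finset G)
  (E : ℕ → Finset G) (lam ε η : ℝ) (q n : ℕ), A.Nonempty → 0 ≤ lam → 0 < ε → ε ≤ 1 → 0 < η →
  η ≤ 1 → 2 * lam + Real.log (64 / η) ≤ ε * q → Dom A E lam n → 1 ≤ n →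
  8 * (q : ℝ) ≤ η * 2 ^ (n - 1) → η * 2 ^ (n - 1) ≤ 16 * (q : ℝ) →
  ∃ s σ τ : G → ℝ, IsP s ∧ IsP σ ∧ IsP τ ∧
    (∀ x, σ x ≠ 0 → 1 - ε ≤ pr s (A + A) x) ∧
    ((∀ t, τ t ≠ 0 → t ∈ A) ∨ (∀ t, τ t ≠ 0 → t ∈ -A)) ∧
    Real.log A.card - H τ ≤ 8 * n * (q : ℝ) ^ 2 ∧ H (cv σ τ) - H σ ≤ η

/-- translates of `σ` by elements of the Bohr set are close to `σ` -/
def TVE : Prop := ∀ (G : Type) [AddCommGroup G] [Fintype G] [DecidableEq G] (σ τ : G → ℝ)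
  (η δ : ℝ), IsP σ → IsP τ → 0 ≤ η → 0 ≤ δ →
  ∑ t, ∑ t', τ t * τ t' * (1 - ∑ x, √(σ x) * √(σ (x + (t - t')))) ≤ η →
  ∀ y : G, (∀ χ : AddChar G ℂ, 1 / 2 ≤ ‖∑ t, (τ t : ℂ) * χ t‖ ^ 2 → ‖χ y - 1‖ ≤ δ) →
  ∀ f : G → ℝ, (∀ x, 0 ≤ f x) → (∀ x, f x ≤ 1) →
  ∑ x, σ x * f x - 2 * √(8 * η + δ ^ 2) ≤ ∑ x, σ x * f (x + y)

/-- the choice of the parameters -/
def PARE : Prop := ∀ ε η : ℝ, 0 < ε → ε ≤ 1 → 0 < η → η ≤ 1 → ∃ C : ℝ, 0 < C ∧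
  ∀ L : ℝ, 0 ≤ L → ∃ q n : ℕ, 1 ≤ n ∧ 2 * L + Real.log (64 / η) ≤ ε * q ∧
    8 * (q : ℝ) ≤ η * 2 ^ (n - 1) ∧ η * 2 ^ (n - 1) ≤ 16 * (q : ℝ) ∧
    8 * n * (q : ℝ) ^ 2 + L ≤ C * ((1 + L) ^ 2 * (1 + Real.log (1 + L)))

/-- finite groups: each probability measure on the Bohr set is concentrated on a translate of
`A + A` -/
def FGE : Prop := ∀ ε : ℝ, 0 < ε → ε ≤ 1 → ∃ C : ℝ, 0 < C ∧
  ∀ (G : Type) [AddCommGroup G] [Fintype G] [DecidableEq G] (A : Finset G), A.Nonempty →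
  ∃ Γ : Finset (AddChar G ℂ), (Γ.card : ℝ) ≤
      C * (1 + Real.log ((Fintype.card G : ℝ) / A.card)) ^ 2 *
        (1 + Real.log (1 + Real.log ((Fintype.card G : ℝ) / A.card))) ∧
    ∀ ν : G → ℝ, IsP ν → (∀ y, ν y ≠ 0 → ∀ χ ∈ Γ, ‖χ y - 1‖ * (C * (Γ.card : ℝ)) ≤ 1) →
      ∃ z : G, 1 - ε ≤ pr ν (A + A) z

/-- vector spaces over prime fields: almost all of an affine subspace; each probability measure
on the subspace is concentrated on a translate of `A + A` -/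
def FQE : Prop := ∀ ε : ℝ, 0 < ε → ε ≤ 1 → ∃ C : ℝ, 0 < C ∧
  ∀ (p : ℕ) [Fact p.Prime] (n : ℕ) (A : Finset (Fin n → ZMod p)) (K : ℝ), A.Nonempty → 2 ≤ K →
    (p : ℝ) ^ n ≤ K * A.card →
    ∃ V : Submodule (ZMod p) (Fin n → ZMod p),
      (n : ℝ) ≤ Module.finrank (ZMod p) V + C * (Real.log K ^ 2 * Real.log (2 + Real.log K)) ∧
      (∃ z, (1 - ε) * (Set.ncard (V : Set (Fin n → ZMod p)) : ℝ) ≤
        (Set.ncard {v | v ∈ V ∧ z + v ∈ A + A} : ℝ)) ∧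
      ∀ ν : (Fin n → ZMod p) → ℝ, IsP ν → (∀ y, ν y ≠ 0 → y ∈ V) →
        ∃ z, 1 - ε ≤ pr ν (A + A) z

end Pool.Agent.H98.BE
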